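import Mathlib

set_option autoImplicit false

open Finset

namespace Pool.Agent.W_MP_6d1f6b_co

/-- A balanced sign pattern modulo `P` with nonnegative sums over translated units. -/
def Good (P : ℕ) [NeZero P] : Prop :=
  ∃ χ : ZMod P → ℤ, (∀ x, χ x = 1 ∨ χ x = -1) ∧ ∑ x, χ x = 1 ∧
    ∀ a, 0 ≤ ∑ x, if IsUnit (x - a) then χ x else 0

/-- The sign on `ZMod p`. -/
def eps (p : ℕ) (x : ZMod p) : ℤ := if 2 * x.val < p then 1 else -1

lemma eps_sum (p : ℕ) [NeZero p] (hp : Odd p) : ∑ x : ZMod p, eps p x = 1 := by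
  obtain ⟨k, hk⟩ := hp
  have h1 : ∑ x : ZMod p, eps p x = ∑ i ∈ range p, (if 2 * i < p then (1 : ℤ) else -1) := by
    rw [Finset.sum_range]
    obtain ⟨q, rfl⟩ : ∃ q, p = q + 1 := ⟨2 * k, by omega⟩
    rfl
  rw [h1, Finset.sum_ite]
  simp only [sum_const, nsmul_eq_mul, mul_one, mul_neg]
  have h2 : (range p).filter (fun i => 2 * i < p) = range (k + 1) := by
    ext i; simp only [mem_filter, mem_range]; omega
  have h3 : (range p).filter (fun i => ¬ 2 * i < p) = Ico (k + 1) p := by
    ext i; simp only [mem_filter, mem_range, mem_Ico]; omega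
  rw [h2, h3, card_range, Nat.card_Ico]
  have : p - (k + 1) = k := by omega
  rw [this]
  push_cast
  ring

lemma good_one : Good 1 := by
  refine ⟨fun _ => 1, fun _ => Or.inl rfl, ?_, ?_⟩
  · simp
  · intro a
    apply Finset.sum_nonneg
    intro x _
    split_ifs <;> norm_num

lemma good_mul {P p : ℕ} [NeZero P] [NeZero (P * p)] (hp : p.Prime) (hodd : Odd p)
    (hco : P.Coprime p) (h : Good P) : Good (P * p) := by
  have : Fact p.Prime := ⟨hp⟩
  obtain ⟨χ, hχ1, hχ2, hχ3⟩ := h
  let e := ZMod.chineseRemainder hco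
  have heps : ∀ x, eps p x = 1 ∨ eps p x = -1 := by
    intro x; unfold eps; split_ifs <;> simp
  refine ⟨fun x => χ (e x).1 * eps p (e x).2, ?_, ?_, ?_⟩
  · intro x
    rcases hχ1 (e x).1 with h1 | h1 <;> rcases heps (e x).2 with h2 | h2 <;> simp [h1, h2]
  · have : ∑ x : ZMod (P * p), χ (e x).1 * eps p (e x).2
        = ∑ y : ZMod P × ZMod p, χ y.1 * eps p y.2 :=
      Fintype.sum_equiv e.toEquiv _ _ (fun x => rfl)
    rw [this, Fintype.sum_prod_type]
    simp only
    rw [← Finset.sum_mul_sum, hχ2, eps_sum p hodd]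
    norm_num
  · intro a
    have h1 : ∑ x : ZMod (P * p), (if IsUnit (x - a) then χ (e x).1 * eps p (e x).2 else 0)
        = ∑ y : ZMod P × ZMod p, (if IsUnit (y.1 - (e a).1) then χ y.1 else 0) *
            (if IsUnit (y.2 - (e a).2) then eps p y.2 else 0) := by
      refine Fintype.sum_equiv e.toEquiv _ _ (fun x => ?_)
      have h2 : IsUnit (x - a) ↔ IsUnit ((e x).1 - (e a).1) ∧ IsUnit ((e x).2 - (e a).2) := by
        rw [← MulEquiv.isUnit_map e.toMulEquiv]
        rw [Prod.isUnit_iff]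
        have : e.toMulEquiv (x - a) = e x - e a := map_sub e x a
        rw [this]
        rfl
      show _ = (if IsUnit ((e x).1 - (e a).1) then χ (e x).1 else 0) *
            (if IsUnit ((e x).2 - (e a).2) then eps p (e x).2 else 0)
      by_cases hA : IsUnit ((e x).1 - (e a).1)
      · by_cases hB : IsUnit ((e x).2 - (e a).2)
        · rw [if_pos (h2.2 ⟨hA, hB⟩), if_pos hA, if_pos hB]
        · rw [if_neg (fun h => hB (h2.1 h).2), if_neg hB, mul_zero]
      · rw [if_neg (fun h => hA (h2.1 h).1), if_neg hA, zero_mul]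
    rw [h1, Fintype.sum_prod_type]
    simp only
    rw [← Finset.sum_mul_sum]
    apply mul_nonneg (hχ3 _)
    have h4 : ∑ y : ZMod p, (if IsUnit (y - (e a).2) then eps p y else 0)
        = ∑ y : ZMod p, eps p y - eps p (e a).2 := by
      rw [← Finset.sum_erase_eq_sub (Finset.mem_univ _), ← Finset.sum_filter]
      apply Finset.sum_congr _ (fun _ _ => rfl)
      ext y
      simp [sub_eq_zero]
    rw [h4, eps_sum p hodd]
    rcases heps (e a).2 with h2 | h2 <;> rw [h2] <;> norm_num

end Pool.Agent.W_MP_6d1f6b_co
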