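import Mathlib

set_option autoImplicit false

open Finset

namespace Pool.Agent.W_MP_6d1f6b_co

/-- number of `i ≤ P/4` coprime to `P` -/
def U (P : ℕ) : ℕ := #{i ∈ range (P / 4 + 1) | P.Coprime i}

lemma count_mul (P m : ℕ) : #{i ∈ range (P * m) | P.Coprime i} = m * Nat.totient P := by
  induction m with
  | zero => simp
  | succ m ih =>
    have h1 : range (P * (m + 1)) = range (P * m) ∪ Ico (P * m) (P * m + P) := by
      ext i; simp only [mem_range, mem_union, mem_Ico, mul_add, mul_one]; omega
    rw [h1, filter_union, card_union_of_disjoint, ih, Nat.filter_coprime_Ico_eq_totient]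
    · ring
    · apply Finset.disjoint_filter_filter
      rw [Finset.disjoint_left]
      intro i
      simp only [mem_range, mem_Ico]
      omega

lemma cop_sub {P m i : ℕ} (h : i ≤ P * m) : P.Coprime (P * m - i) ↔ P.Coprime i := by
  rw [← Nat.isCoprime_iff_coprime, ← Nat.isCoprime_iff_coprime, Nat.cast_sub h]
  push_cast
  rw [sub_eq_add_neg, add_comm, IsCoprime.add_mul_left_right_iff, IsCoprime.neg_right_iff]

lemma U_rec {P p k : ℕ} (hP : 1 < P) (hPodd : Odd P) (hp : p.Prime) (hk : p = 4 * k + 3)
    (hco : P.Coprime p) : U (P * p) + 2 * U P = (k + 1) * Nat.totient P := by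
  have hp0 : 0 < p := hp.pos
  have hP4 : ¬ 4 ∣ P := by
    intro h
    have := (Nat.not_even_iff_odd.2 hPodd)
    exact this ((by decide : Even 4).trans_dvd h)
  -- step 1
  have h1 : #{i ∈ range (P * p / 4 + 1) | P.Coprime i} =
      U (P * p) + #{i ∈ range (P * p / 4 + 1) | P.Coprime i ∧ p ∣ i} := by
    unfold U
    rw [← card_union_of_disjoint]
    · congr 1
      ext i
      simp only [mem_filter, mem_union, Nat.Coprime, mem_range]
      constructor
      · rintro ⟨hi, hc⟩
        by_cases hd : p ∣ i
        · exact Or.inr ⟨hi, hc, hd⟩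
        · refine Or.inl ⟨hi, ?_⟩
          exact Nat.Coprime.mul_left hc ((Nat.Prime.coprime_iff_not_dvd hp).2 hd)
      · rintro (⟨hi, hc⟩ | ⟨hi, hc, _⟩)
        · exact ⟨hi, Nat.Coprime.coprime_mul_right hc⟩
        · exact ⟨hi, hc⟩
    · rw [Finset.disjoint_left]
      intro i
      simp only [mem_filter, mem_range]
      rintro ⟨_, hc⟩ ⟨_, _, hd⟩
      have := Nat.Coprime.coprime_mul_left hc
      exact (Nat.Prime.coprime_iff_not_dvd hp).1 this hd
  have h2 : #{i ∈ range (P * p / 4 + 1) | P.Coprime i ∧ p ∣ i} = U P := by
    unfold U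
    symm
    refine Finset.card_bij (fun i _ => p * i) ?_ ?_ ?_
    · intro i hi
      simp only [mem_filter, mem_range] at hi ⊢
      refine ⟨?_, Nat.Coprime.mul_right hco hi.2, dvd_mul_right _ _⟩
      have h4 : 4 * i ≤ P := by omega
      have : p * (4 * i) ≤ p * P := Nat.mul_le_mul_left _ h4
      have h5 : 4 * (p * i) ≤ P * p := by nlinarith
      omega
    · intro i _ j _ hij
      exact Nat.eq_of_mul_eq_mul_left hp0 hij
    · intro i hi
      simp only [mem_filter, mem_range] at hi
      obtain ⟨hi1, hi2, j, rfl⟩ := hi
      refine ⟨j, ?_, rfl⟩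
      simp only [mem_filter, mem_range]
      refine ⟨?_, Nat.Coprime.coprime_mul_left_right hi2⟩
      have h4 : 4 * (p * j) ≤ P * p := by omega
      have h5 : p * (4 * j) ≤ p * P := by nlinarith
      have h6 := Nat.le_of_mul_le_mul_left h5 hp0
      omega
  -- step 2
  have h3 : #{i ∈ range (P * (k + 1)) | P.Coprime i} =
      #{i ∈ range (P * p / 4 + 1) | P.Coprime i} + U P := by
    have hle : P * p / 4 + 1 ≤ P * (k + 1) := by
      have : P * p < 4 * (P * (k + 1)) := by
        rw [hk]; nlinarith
      omega
    have h4 : range (P * (k + 1)) = range (P * p / 4 + 1) ∪ Ico (P * p / 4 + 1) (P * (k + 1)) := by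
      ext i; simp only [mem_range, mem_union, mem_Ico]; omega
    rw [h4, filter_union, card_union_of_disjoint]
    · congr 1
      unfold U
      refine Finset.card_bij' (fun i _ => P * (k + 1) - i) (fun i _ => P * (k + 1) - i)
        ?_ ?_ ?_ ?_
      · intro i hi
        simp only [mem_filter, mem_range, mem_Ico] at hi ⊢
        obtain ⟨⟨hi1, hi2⟩, hc⟩ := hi
        refine ⟨?_, ?_⟩
        · have h5 : P * p < 4 * i := by omega
          have h6 : 4 * (P * (k + 1) - i) < P := by
            have : 4 * (P * (k + 1)) = P * p + P := by rw [hk]; ring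
            omega
          omega
        · exact (cop_sub (by omega)).2 hc
      · intro i hi
        simp only [mem_filter, mem_range, mem_Ico] at hi ⊢
        obtain ⟨hi1, hc⟩ := hi
        have hi0 : i ≠ 0 := by
          rintro rfl
          simp at hc
          omega
        have h5 : 4 * i < P := by
          have : 4 * i ≤ P := by omega
          rcases this.lt_or_eq with h | h
          · exact h
          · exact absurd ⟨i, h.symm⟩ hP4
        have h7 : 4 * (P * (k + 1)) = P * p + P := by rw [hk]; ring
        refine ⟨⟨?_, ?_⟩, ?_⟩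
        · omega
        · have : 0 < P * (k + 1) := by positivity
          omega
        · have h8 : i ≤ P * (k + 1) := by omega
          exact (cop_sub h8).2 hc
      · intro i hi
        simp only [mem_filter, mem_Ico] at hi
        omega
      · intro i hi
        simp only [mem_filter, mem_range] at hi
        have : i ≤ P := by omega
        have : P ≤ P * (k + 1) := by nlinarith
        omega
    · apply Finset.disjoint_filter_filter
      rw [Finset.disjoint_left]
      intro i
      simp only [mem_range, mem_Ico]
      omega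
  rw [count_mul] at h3
  omega

end Pool.Agent.W_MP_6d1f6b_co
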