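import Mathlib
import Pool.Agent.W_MP_6d1f6b_co.Char
import Pool.Agent.W_MP_6d1f6b_co.Count

set_option autoImplicit false

open Finset

namespace Pool.Agent.W_MP_6d1f6b_co

/-- The recursive construction of `P`. -/
lemma exists_P (m : ℕ) : ∃ P : ℕ, ∃ _ : NeZero P, 1 < P ∧ P % 4 = (if Even m then 3 else 1) ∧
    Good P ∧ (4 * U P : ℤ) = Nat.totient P + (-2) ^ (m + 1) ∧ P.primeFactors.card = m + 1 := by
  induction m with
  | zero =>
    refine ⟨3, ⟨by norm_num⟩, by norm_num, by simp, ?_, ?_, ?_⟩
    · have := good_mul (P := 1) (p := 3) Nat.prime_three (by decide) (by norm_num) good_one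
      simpa using this
    · have h1 : U 3 = 0 := by decide
      have h2 : Nat.totient 3 = 2 := by decide
      rw [h1, h2]; norm_num
    · simp [Nat.Prime.primeFactors Nat.prime_three]
  | succ m ih =>
    obtain ⟨P, hP0, hP1, hP4, hgood, hU, hω⟩ := ih
    obtain ⟨p, hpP, hp, hp3⟩ := Nat.forall_exists_prime_gt_and_eq_mod (q := 4) (a := 3)
      (by decide) P
    have hp4 : p % 4 = 3 := by
      have : (p : ZMod 4) = ((3 : ℕ) : ZMod 4) := by rw [hp3]; rfl
      rw [ZMod.natCast_eq_natCast_iff'] at this
      exact this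
    have hco : P.Coprime p := by
      rw [Nat.coprime_comm, Nat.Prime.coprime_iff_not_dvd hp]
      intro h
      have := Nat.le_of_dvd (by omega) h
      omega
    have hpodd : Odd p := Nat.odd_iff.2 (by omega)
    have hPodd : Odd P := by
      rw [Nat.odd_iff]
      by_cases hm : Even m
      · rw [if_pos hm] at hP4; omega
      · rw [if_neg hm] at hP4; omega
    have : NeZero (P * p) := ⟨by have := hp.pos; positivity⟩
    refine ⟨P * p, inferInstance, ?_, ?_, good_mul hp hpodd hco hgood, ?_, ?_⟩
    · have := hp.one_lt; nlinarith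
    · rw [Nat.mul_mod, hP4, hp4]
      by_cases hm : Even m
      · have : ¬ Even (m + 1) := by rw [Nat.even_add_one]; simpa using hm
        rw [if_pos hm, if_neg this]
      · have : Even (m + 1) := by rw [Nat.even_add_one]; exact hm
        rw [if_neg hm, if_pos this]
    · obtain ⟨k, hk⟩ : ∃ k, p = 4 * k + 3 := ⟨p / 4, by omega⟩
      have hrec := U_rec hP1 hPodd hp hk hco
      have hrec' : (U (P * p) : ℤ) + 2 * U P = (k + 1) * Nat.totient P := by exact_mod_cast hrec
      rw [Nat.totient_mul hco, Nat.totient_prime hp]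
      have : p - 1 = 4 * k + 2 := by omega
      rw [this]
      push_cast
      rw [pow_succ]
      linear_combination 4 * hrec' - 2 * hU
    · rw [hco.primeFactors_mul, card_union_of_disjoint hco.disjoint_primeFactors, hω,
        hp.primeFactors, card_singleton]

lemma card_isUnit (P : ℕ) [NeZero P] (a : ZMod P) :
    #{x : ZMod P | IsUnit (x - a)} = Nat.totient P := by
  rw [← ZMod.card_units_eq_totient, ← Finset.card_univ]
  symm
  refine Finset.card_bij (fun u _ => (u : ZMod P) + a) ?_ ?_ ?_
  · intro u _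
    simp
  · intro u _ v _ h
    exact Units.ext (add_right_cancel h)
  · intro x hx
    simp only [mem_filter, mem_univ, true_and] at hx
    obtain ⟨u, hu⟩ := hx
    exact ⟨u, mem_univ _, by rw [hu]; ring⟩

lemma card_plus {P : ℕ} [NeZero P] {χ : ZMod P → ℤ} (h1 : ∀ x, χ x = 1 ∨ χ x = -1)
    (h2 : ∑ x, χ x = 1) : 2 * #{x : ZMod P | χ x = 1} = P + 1 := by
  have h3 : ∑ x : ZMod P, (1 + χ x) = 2 * (#{x : ZMod P | χ x = 1} : ℤ) := by
    rw [Finset.card_filter]
    push_cast
    rw [Finset.mul_sum]
    apply Finset.sum_congr rfl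
    intro x _
    rcases h1 x with h | h
    · rw [h]; norm_num
    · rw [h]; norm_num
  rw [Finset.sum_add_distrib, h2] at h3
  simp only [sum_const, card_univ, ZMod.card, nsmul_eq_mul, mul_one] at h3
  exact_mod_cast h3.symm

lemma card_plus_unit {P : ℕ} [NeZero P] {χ : ZMod P → ℤ} (h1 : ∀ x, χ x = 1 ∨ χ x = -1)
    (a : ZMod P) (h2 : 0 ≤ ∑ x, if IsUnit (x - a) then χ x else 0) :
    Nat.totient P ≤ 2 * #{x : ZMod P | χ x = 1 ∧ IsUnit (x - a)} := by
  have h3 : ∑ x : ZMod P, (if IsUnit (x - a) then (1 + χ x) else 0)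
      = 2 * (#{x : ZMod P | χ x = 1 ∧ IsUnit (x - a)} : ℤ) := by
    rw [Finset.card_filter]
    push_cast
    rw [Finset.mul_sum]
    apply Finset.sum_congr rfl
    intro x _
    by_cases hu : IsUnit (x - a)
    · rcases h1 x with h | h
      · simp [h, hu]
      · simp [h, hu]
    · simp [hu]
  have h4 : ∑ x : ZMod P, (if IsUnit (x - a) then (1 + χ x) else 0)
      = (Nat.totient P : ℤ) + ∑ x, if IsUnit (x - a) then χ x else 0 := by
    rw [← card_isUnit P a, Finset.card_filter]
    push_cast
    rw [← Finset.sum_add_distrib]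
    apply Finset.sum_congr rfl
    intro x _
    split_ifs <;> ring
  have : (Nat.totient P : ℤ) ≤ 2 * #{x : ZMod P | χ x = 1 ∧ IsUnit (x - a)} := by
    rw [← h3, h4]; linarith
  exact_mod_cast this

/-- The middle block contains few residues coprime to `P`. -/
lemma card_middle {P k : ℕ} (hP : 1 < P) (hk : P = 4 * k + 1) :
    #{i ∈ Ico (k + 1) (3 * k + 1) | P.Coprime i} + 2 * U P = Nat.totient P := by
  have hkP : P / 4 = k := by omega
  have h0 : #{i ∈ range (P * 1) | P.Coprime i} = 1 * Nat.totient P := count_mul P 1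
  rw [mul_one, one_mul] at h0
  have h1 : range P = range (k + 1) ∪ (Ico (k + 1) (3 * k + 1) ∪ Ico (3 * k + 1) P) := by
    ext i; simp only [mem_range, mem_union, mem_Ico]; omega
  have h2 : #{i ∈ Ico (3 * k + 1) P | P.Coprime i} = U P := by
    unfold U
    rw [hkP]
    refine Finset.card_bij' (fun i _ => P * 1 - i) (fun i _ => P * 1 - i) ?_ ?_ ?_ ?_
    · intro i hi
      simp only [mem_filter, mem_range, mem_Ico] at hi ⊢
      exact ⟨by omega, (cop_sub (by omega)).2 hi.2⟩
    · intro i hi
      simp only [mem_filter, mem_range, mem_Ico] at hi ⊢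
      have hi0 : i ≠ 0 := by
        rintro rfl
        have := hi.2
        simp at this
        omega
      exact ⟨by omega, (cop_sub (by omega)).2 hi.2⟩
    · intro i hi
      simp only [mem_filter, mem_Ico] at hi
      omega
    · intro i hi
      simp only [mem_filter, mem_range] at hi
      omega
  have h3 : U P = #{i ∈ range (k + 1) | P.Coprime i} := by
    unfold U; rw [hkP]
  rw [h1, filter_union, card_union_of_disjoint, filter_union, card_union_of_disjoint, h2, ← h3]
    at h0
  · omega
  · apply Finset.disjoint_filter_filter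
    rw [Finset.disjoint_left]
    intro i
    simp only [mem_Ico]
    omega
  · apply Finset.disjoint_filter_filter
    rw [Finset.disjoint_left]
    intro i
    simp only [mem_union, mem_Ico, mem_range]
    omega

end Pool.Agent.W_MP_6d1f6b_co
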