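import Mathlib
import Pool.Agent.W_MP_6d1f6b_co.Prod

set_option autoImplicit false

open Finset

namespace Pool.Agent.W_MP_6d1f6b_co

lemma exists_primes (N b : ℕ) : ∃ Q : Finset ℕ, Q.card = N ∧ ∀ q ∈ Q, q.Prime ∧ b < q := by
  have hinf : {q : ℕ | q.Prime ∧ b < q}.Infinite := by
    rw [Set.infinite_iff_exists_gt]
    intro a
    obtain ⟨p, hp1, hp2⟩ := Nat.exists_infinite_primes (max a b + 1)
    exact ⟨p, ⟨hp2, by omega⟩, by omega⟩
  obtain ⟨Q, hQ1, hQ2⟩ := hinf.exists_subset_card_eq N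
  exact ⟨Q, hQ2, fun q hq => hQ1 hq⟩

lemma exists_total_dominating {P : ℕ} [NeZero P] (hgood : Good P) (Q : Finset ℕ)
    (hQ : ∀ q ∈ Q, q.Prime ∧ P < q) (hcard : 2 * Q.card < Nat.totient P) :
    ∃ D : Finset (ZMod (P * ∏ q ∈ Q, q)), 2 * D.card ≤ P + 1 ∧ ∀ v, ∃ u ∈ D, IsUnit (u - v) := by
  obtain ⟨χ, h1, h2, h3⟩ := hgood
  set n : ℕ := P * ∏ q ∈ Q, q with hn
  have hn0 : n ≠ 0 := by
    rw [hn]
    apply mul_ne_zero (NeZero.ne P)
    rw [Finset.prod_ne_zero_iff]
    intro q hq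
    exact (hQ q hq).1.ne_zero
  have : NeZero n := ⟨hn0⟩
  refine ⟨({x : ZMod P | χ x = 1} : Finset (ZMod P)).image (fun x => ((x.val : ℕ) : ZMod n)),
    ?_, ?_⟩
  · have := card_plus h1 h2
    have hle := Finset.card_image_le (s := ({x : ZMod P | χ x = 1} : Finset (ZMod P)))
      (f := fun x => ((x.val : ℕ) : ZMod n))
    omega
  · intro v
    set a : ℕ := v.val with ha
    have hva : v = (a : ZMod n) := by rw [ha, ZMod.natCast_zmod_val]
    have hA := card_plus_unit h1 (a : ZMod P) (h3 (a : ZMod P))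
    by_contra hcon
    push Not at hcon
    -- every candidate is blocked by some prime of `Q`
    have hblock : ∀ d : ZMod P, d ∈ ({x : ZMod P | χ x = 1 ∧ IsUnit (x - (a : ZMod P))} :
        Finset (ZMod P)) → ∃ q ∈ Q, (q : ℤ) ∣ (d.val : ℤ) - a := by
      intro d hd
      simp only [mem_filter, mem_univ, true_and] at hd
      by_contra hno
      push Not at hno
      apply hcon ((d.val : ℕ) : ZMod n)
      · exact Finset.mem_image.2 ⟨d, by simpa using hd.1, rfl⟩
      · rw [hva]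
        have e : ((d.val : ℕ) : ZMod n) - (a : ZMod n) = (((d.val : ℤ) - a : ℤ) : ZMod n) := by
          push_cast; rfl
        rw [e, ZMod.coe_int_isUnit_iff_isCoprime]
        rw [hn]
        push_cast
        apply IsCoprime.mul_left
        · rw [← ZMod.coe_int_isUnit_iff_isCoprime]
          push_cast
          rw [ZMod.natCast_zmod_val]
          exact hd.2
        · apply IsCoprime.prod_left
          intro q hq
          rw [(Nat.prime_iff_prime_int.1 (hQ q hq).1).coprime_iff_not_dvd]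
          exact hno q hq
    choose! f hfQ hfd using hblock
    have hinj : Set.InjOn f (({x : ZMod P | χ x = 1 ∧ IsUnit (x - (a : ZMod P))} :
        Finset (ZMod P)) : Set (ZMod P)) := by
      intro d hd d' hd' hdd
      have e1 := hfd d hd
      have e2 := hfd d' hd'
      rw [← hdd] at e2
      have e3 : (f d : ℤ) ∣ (d.val : ℤ) - d'.val := by
        have := dvd_sub e1 e2
        have e : (d.val : ℤ) - a - ((d'.val : ℤ) - a) = (d.val : ℤ) - d'.val := by ring
        rwa [e] at this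
      have hq := hQ (f d) (hfQ d hd)
      have l1 := ZMod.val_lt d
      have l2 := ZMod.val_lt d'
      have e4 : (d.val : ℤ) - d'.val = 0 := by
        apply Int.eq_zero_of_abs_lt_dvd e3
        rw [abs_lt]
        constructor <;> omega
      exact ZMod.val_injective P (by omega)
    have := Finset.card_le_card_of_injOn f hfQ hinj
    omega

lemma block {P : ℕ} (Q : Finset ℕ) (hP : 0 < P) (hQ : ∀ q ∈ Q, q.Prime ∧ P < q)
    (B : Finset ℕ) (hB : #{i ∈ B | P.Coprime i} ≤ Q.card) :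
    ∃ t : ℕ, ∀ i ∈ B, ¬ (t + i).Coprime (P * ∏ q ∈ Q, q) := by
  classical
  set S : Finset ℕ := {i ∈ B | P.Coprime i} with hS
  obtain ⟨f, hf1, hf2⟩ : ∃ f : ℕ → ℕ, (∀ i ∈ S, f i ∈ Q) ∧ Set.InjOn f (S : Set ℕ) := by
    obtain ⟨f, hf, hinj⟩ := (S.finite_toSet).exists_injOn_of_encard_le (t := (Q : Set ℕ)) (by
      rw [Set.encard_coe_eq_coe_finsetCard, Set.encard_coe_eq_coe_finsetCard]
      exact_mod_cast hB)
    exact ⟨f, fun i hi => by simpa using hf hi, hinj⟩
  have hpair : Set.Pairwise (S : Set ℕ) (Function.onFun Nat.Coprime f) := by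
    intro i hi j hj hij
    have hne : f i ≠ f j := fun h => hij (hf2 hi hj h)
    exact (Nat.coprime_primes (hQ _ (hf1 i hi)).1 (hQ _ (hf1 j hj)).1).2 hne
  obtain ⟨t₁, ht₁⟩ := Nat.chineseRemainderOfFinset (fun i => (f i - 1) * i) f S
    (fun i hi => (hQ _ (hf1 i hi)).1.ne_zero) hpair
  have hco : P.Coprime (∏ i ∈ S, f i) := by
    apply Nat.Coprime.prod_right
    intro i hi
    rw [Nat.coprime_comm, Nat.Prime.coprime_iff_not_dvd (hQ _ (hf1 i hi)).1]
    intro h
    have := Nat.le_of_dvd hP h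
    have := (hQ _ (hf1 i hi)).2
    omega
  obtain ⟨t, htP, ht⟩ := Nat.chineseRemainder hco 0 t₁
  refine ⟨t, ?_⟩
  intro i hi hc
  by_cases hiP : P.Coprime i
  · have hiS : i ∈ S := by rw [hS, mem_filter]; exact ⟨hi, hiP⟩
    have hq := hQ _ (hf1 i hiS)
    have h1 : t ≡ (f i - 1) * i [MOD f i] :=
      (ht.of_dvd (Finset.dvd_prod_of_mem f hiS)).trans (ht₁ i hiS)
    have h2 : t + i ≡ 0 [MOD f i] := by
      have h3 : t + i ≡ (f i - 1) * i + i [MOD f i] := h1.add_right i
      have h4 : (f i - 1) * i + i = f i * i := by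
        have := hq.1.pos
        obtain ⟨r, hr⟩ : ∃ r, f i = r + 1 := ⟨f i - 1, by omega⟩
        rw [hr]; simp; ring
      rw [h4] at h3
      exact h3.trans (Nat.modEq_zero_iff_dvd.2 (dvd_mul_right _ _))
    have h5 : f i ∣ t + i := Nat.modEq_zero_iff_dvd.1 h2
    have h6 : f i ∣ P * ∏ q ∈ Q, q :=
      (Finset.dvd_prod_of_mem (fun q => q) (hf1 i hiS)).mul_left P
    exact Nat.not_coprime_of_dvd_of_dvd hq.1.one_lt h5 h6 hc
  · apply hiP
    have h1 : (t + i).Coprime P := Nat.Coprime.coprime_mul_right_right hc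
    have h2 : P ∣ t := Nat.modEq_zero_iff_dvd.1 htP
    obtain ⟨s, rfl⟩ := h2
    rw [Nat.coprime_comm] at h1
    rw [← Nat.isCoprime_iff_coprime] at h1 ⊢
    push_cast at h1
    rw [add_comm] at h1
    exact (IsCoprime.add_mul_left_right_iff).1 h1

end Pool.Agent.W_MP_6d1f6b_co
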